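import Pool.Agent.N65.GP.Defs2
set_option autoImplicit false

/-!
# Project GP, second part, EM: the finite set `M` (leaf by helper255)

The step with `S_LC` follows `Pool/Agent/N592/GP/CO.lean` (helper592); `rank` is from
`Pool/Agent/N767/GP2/EC.lean` (helper767).
-/

namespace Pool.Agent.N255.GP2

open Pool.Agent.N65.GP

/-- a holomorphic function near `c₀` with real part `log |x - c|` -/
noncomputable def Lg (x c₀ c : ℂ) : ℂ :=
  Complex.log ((x - c) / (x - c₀)) + (Real.log ‖x - c₀‖ : ℝ)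

theorem slit (x c₀ c : ℂ) (h : ‖c - c₀‖ < ‖x - c₀‖) : (x - c) / (x - c₀) ∈ Complex.slitPlane := by
  have h0 : x - c₀ ≠ 0 := by
    intro h1
    rw [h1, norm_zero] at h
    exact absurd h (not_lt.2 (norm_nonneg _))
  have h1 : (x - c) / (x - c₀) = 1 - (c - c₀) / (x - c₀) := by
    field_simp
    ring
  have h2 : ‖(c - c₀) / (x - c₀)‖ < 1 := by
    rw [norm_div, div_lt_one (norm_pos_iff.2 h0)]
    exact h
  left
  rw [h1, Complex.sub_re, Complex.one_re]
  have h3 := (Complex.re_le_norm ((c - c₀) / (x - c₀)))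
  linarith

theorem Lg_diff (x c₀ : ℂ) (ε : ℝ) (hε : ε ≤ ‖x - c₀‖) :
    DifferentiableOn ℂ (Lg x c₀) (Metric.ball c₀ ε) := by
  unfold Lg
  refine DifferentiableOn.add ?_ (differentiableOn_const _)
  refine DifferentiableOn.clog ?_ ?_
  · exact ((differentiableOn_const _).sub differentiableOn_id).div_const _
  · intro c hc
    refine slit x c₀ c ?_
    rw [← dist_eq_norm]
    exact lt_of_lt_of_le (Metric.mem_ball.1 hc) hε

theorem Lg_re (x c₀ c : ℂ) (h : ‖c - c₀‖ < ‖x - c₀‖) : (Lg x c₀ c).re = Real.log ‖x - c‖ := by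
  have h0 : x - c₀ ≠ 0 := by
    intro h1
    rw [h1, norm_zero] at h
    exact absurd h (not_lt.2 (norm_nonneg _))
  have h1 : x - c ≠ 0 := by
    intro h1
    have h2 : x = c := sub_eq_zero.1 h1
    rw [h2] at h
    exact lt_irrefl _ h
  unfold Lg
  rw [Complex.add_re, Complex.log_re, Complex.ofReal_re, norm_div,
    Real.log_div (norm_ne_zero_iff.2 h1) (norm_ne_zero_iff.2 h0)]
  ring

theorem phi_re {d : ℕ} (γ : Fin d → Loop) (s : Fin d → ℝ) (m c : ℂ) :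
    (∑ l, (s l : ℂ) * (-Complex.I * (γ l).int (ker m c))).re =
      ∑ l, s l * ((γ l).int (ker m c)).im := by
  rw [Complex.re_sum]
  refine Finset.sum_congr rfl fun l _ => ?_
  rw [Complex.re_ofReal_mul]
  congr 1
  simp

/-- the matrix of `S_LI` -/
noncomputable def mat {n : ℕ} (y b : Fin n → ℂ) (u : Fin n × Fin 3 → ℂ) :
    Matrix (Fin n × Fin 3) (Fin n × Fin 3) ℝ :=
  Matrix.of fun j p : Fin n × Fin 3 => (![Real.log ‖y p.1 - u j‖,
      (b p.1 / (y p.1 - u j)).re, (b p.1 / (y p.1 - u j)).im] : Fin 3 → ℝ) p.2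

/-- the rank condition from the nonsingular matrix of `S_LI` -/
lemma rank {n : ℕ} (y b : Fin n → ℂ) (u : Fin n × Fin 3 → ℂ) (hdet : (mat y b u).det ≠ 0)
    (v : Fin n → ℝ) (hv : ∀ j, ∑ i, v i * Real.log ‖y i - u j‖ = 0) : v = 0 := by
  have h1 := Matrix.eq_zero_of_mulVec_eq_zero (v := fun p : Fin n × Fin 3 =>
    if p.2 = 0 then v p.1 else 0) hdet (by
      funext j
      simp only [mat, Matrix.mulVec, dotProduct, Matrix.of_apply, Fintype.sum_prod_type,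
        Fin.sum_univ_three, Pi.zero_apply]
      refine Eq.trans (Finset.sum_congr rfl fun i _ => ?_) (hv j)
      simp
      ring)
  funext i
  have h2 := congrFun h1 (i, 0)
  simpa using h2

/-- the determinant is a continuous function of `c` -/
lemma cont {n : ℕ} (Y : Fin n → ℂ → ℂ) (u : Fin n × Fin 3 → ℂ) (c₀ : ℂ) (R : ℝ)
    (hc₀ : R < ‖c₀‖) (hY : ∀ i, DifferentiableOn ℂ (Y i) {c | R < ‖c‖})
    (hu : ∀ j i, Y i c₀ ≠ u j) :
    ContinuousAt (fun c => (mat (fun i => Y i c) (fun i => deriv (Y i) c) u).det) c₀ := by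
  have ho : IsOpen {c : ℂ | R < ‖c‖} := isOpen_lt continuous_const continuous_norm
  have hYc : ∀ i, ContinuousAt (Y i) c₀ := fun i =>
    ((hY i).differentiableAt (ho.mem_nhds hc₀)).continuousAt
  have hYd : ∀ i, ContinuousAt (deriv (Y i)) c₀ := fun i =>
    (((hY i).deriv ho).differentiableAt (ho.mem_nhds hc₀)).continuousAt
  have h1 : ContinuousAt (fun c => mat (fun i => Y i c) (fun i => deriv (Y i) c) u) c₀ := by
    refine continuousAt_pi.2 fun j => continuousAt_pi.2 fun p => ?_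
    obtain ⟨i, t⟩ := p
    have hs : ContinuousAt (fun c => Y i c - u j) c₀ := (hYc i).sub continuousAt_const
    have hne : Y i c₀ - u j ≠ 0 := sub_ne_zero.2 (hu j i)
    have hq : ContinuousAt (fun c => deriv (Y i) c / (Y i c - u j)) c₀ := (hYd i).div hs hne
    fin_cases t
    · show ContinuousAt (fun c => Real.log ‖Y i c - u j‖) c₀
      exact ContinuousAt.log hs.norm (norm_ne_zero_iff.2 hne)
    · show ContinuousAt (fun c => (deriv (Y i) c / (Y i c - u j)).re) c₀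
      exact Complex.continuous_re.continuousAt.comp hq
    · show ContinuousAt (fun c => (deriv (Y i) c / (Y i c - u j)).im) c₀
      exact Complex.continuous_im.continuousAt.comp hq
  have h2 : Continuous (fun A : Matrix (Fin n × Fin 3) (Fin n × Fin 3) ℝ => A.det) :=
    continuous_id.matrix_det
  exact h2.continuousAt.comp h1

/-- a point outside a finite set -/
lemma big (R : ℝ) (hR : 0 < R) (B : Finset ℂ) : ∃ c : ℂ, R < ‖c‖ ∧ c ∉ B := by
  have h0 : 0 ≤ ∑ x ∈ B, ‖x‖ := Finset.sum_nonneg fun _ _ => norm_nonneg _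
  have h1 : ‖((R + ∑ x ∈ B, ‖x‖ + 1 : ℝ) : ℂ)‖ = R + ∑ x ∈ B, ‖x‖ + 1 := by
    rw [Complex.norm_real, Real.norm_eq_abs, abs_of_nonneg (by linarith)]
  refine ⟨((R + ∑ x ∈ B, ‖x‖ + 1 : ℝ) : ℂ), ?_, ?_⟩
  · rw [h1]
    linarith
  · intro h
    have h2 := Finset.single_le_sum (f := fun x : ℂ => ‖x‖) (fun _ _ => norm_nonneg _) h
    simp only [h1] at h2
    linarith

variable {k : Subfield ℂ}

/-- the space `N_m` -/
noncomputable def NN {n d : ℕ} (γ : Fin d → Loop) (δ : Fin n → Loop) (R₂ : ℝ) (m : ℂ) :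
    Submodule ℝ ((Fin d → ℝ) × (Fin n → ℝ)) where
  carrier := {v | ∀ c, R₂ < ‖c‖ → ∑ l, (v.1 l : ℂ) * (γ l).int (ker m c) +
    ∑ i, ((v.2 i / (2 * Real.pi) : ℝ) : ℂ) * (δ i).int (ker m c) = 0}
  add_mem' := by
    intro v v' h1 h2 c hc
    have h3 := h1 c hc
    have h4 := h2 c hc
    have h5 : ∑ l, (((v + v').1 l : ℝ) : ℂ) * (γ l).int (ker m c) =
        ∑ l, (v.1 l : ℂ) * (γ l).int (ker m c) + ∑ l, (v'.1 l : ℂ) * (γ l).int (ker m c) := by
      rw [← Finset.sum_add_distrib]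
      refine Finset.sum_congr rfl fun l _ => ?_
      rw [Prod.fst_add, Pi.add_apply]
      push_cast
      ring
    have h6 : ∑ i, ((((v + v').2 i) / (2 * Real.pi) : ℝ) : ℂ) * (δ i).int (ker m c) =
        ∑ i, ((v.2 i / (2 * Real.pi) : ℝ) : ℂ) * (δ i).int (ker m c) +
          ∑ i, ((v'.2 i / (2 * Real.pi) : ℝ) : ℂ) * (δ i).int (ker m c) := by
      rw [← Finset.sum_add_distrib]
      refine Finset.sum_congr rfl fun l _ => ?_
      rw [Prod.snd_add, Pi.add_apply, add_div]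
      push_cast
      ring
    rw [h5, h6]
    linear_combination h3 + h4
  zero_mem' := by
    intro c _
    simp
  smul_mem' := by
    intro a v h1 c hc
    have h3 := h1 c hc
    have h5 : ∑ l, (((a • v).1 l : ℝ) : ℂ) * (γ l).int (ker m c) =
        (a : ℂ) * ∑ l, (v.1 l : ℂ) * (γ l).int (ker m c) := by
      rw [Finset.mul_sum]
      refine Finset.sum_congr rfl fun l _ => ?_
      rw [Prod.smul_fst, Pi.smul_apply, smul_eq_mul]
      push_cast
      ring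
    have h6 : ∑ i, ((((a • v).2 i) / (2 * Real.pi) : ℝ) : ℂ) * (δ i).int (ker m c) =
        (a : ℂ) * ∑ i, ((v.2 i / (2 * Real.pi) : ℝ) : ℂ) * (δ i).int (ker m c) := by
      rw [Finset.mul_sum]
      refine Finset.sum_congr rfl fun l _ => ?_
      rw [Prod.smul_snd, Pi.smul_apply, smul_eq_mul, mul_div_assoc]
      push_cast
      ring
    rw [h5, h6]
    linear_combination (a : ℂ) * h3

lemma mem_NN {n d : ℕ} (γ : Fin d → Loop) (δ : Fin n → Loop) (R₂ : ℝ) (m : ℂ)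
    (v : (Fin d → ℝ) × (Fin n → ℝ)) : v ∈ NN γ δ R₂ m ↔
      ∀ c, R₂ < ‖c‖ → ∑ l, (v.1 l : ℂ) * (γ l).int (ker m c) +
        ∑ i, ((v.2 i / (2 * Real.pi) : ℝ) : ℂ) * (δ i).int (ker m c) = 0 := Iff.rfl

/-- the two factorisations of `F(c, m)` -/
lemma logF (hPF : S_PF) (C : Crv k) {R : ℝ} (b : Br C R) (c m : ℂ) (hc : R < ‖c‖) (hm : R < ‖m‖)
    (hF : C.F c m ≠ 0) :
    ∑ i, Real.log ‖b.yb i c - m‖ = ∑ i, Real.log ‖C.α i‖ + ∑ i, Real.log ‖b.xb i m - c‖ := by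
  have h1 := (hPF k C).2.1 c (fun i => b.yb i c) (b.injY c hc) (b.rootY c hc) m
  have h2 := (hPF k C).2.2 m (fun i => b.xb i m) (b.injX m hm) (b.rootX m hm) c
  have h3 : ∀ i, m - b.yb i c ≠ 0 := by
    intro i hi
    apply hF
    rw [h1]
    exact Finset.prod_eq_zero (Finset.mem_univ i) hi
  have h4 : ∀ i, c - b.xb i m ≠ 0 := by
    intro i hi
    apply hF
    have h9 : ∏ i, (c - b.xb i m) = 0 := Finset.prod_eq_zero (Finset.mem_univ i) hi
    rw [h2, h9, mul_zero]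
  have h5 : Real.log ‖C.F c m‖ = ∑ i, Real.log ‖b.yb i c - m‖ := by
    rw [h1, norm_prod, Real.log_prod fun i _ => norm_ne_zero_iff.2 (h3 i)]
    exact Finset.sum_congr rfl fun i _ => by rw [norm_sub_rev]
  have h6 : Real.log ‖C.F c m‖ = ∑ i, Real.log ‖C.α i‖ + ∑ i, Real.log ‖b.xb i m - c‖ := by
    have h7 : (∏ i, (- C.α i)) ≠ 0 :=
      Finset.prod_ne_zero_iff.2 fun i _ => neg_ne_zero.2 (C.ne i)
    have h8 : (∏ i, (c - b.xb i m)) ≠ 0 := Finset.prod_ne_zero_iff.2 fun i _ => h4 i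
    rw [h2, norm_mul, Real.log_mul (norm_ne_zero_iff.2 h7) (norm_ne_zero_iff.2 h8), norm_prod,
      norm_prod, Real.log_prod fun i _ => norm_ne_zero_iff.2 (neg_ne_zero.2 (C.ne i)),
      Real.log_prod fun i _ => norm_ne_zero_iff.2 (h4 i)]
    congr 1
    · exact Finset.sum_congr rfl fun i _ => by rw [norm_neg]
    · exact Finset.sum_congr rfl fun i _ => by rw [norm_sub_rev]
  rw [← h5, h6]

theorem t_EM (hH : S_H) (hHD : S_HD) (hLI : S_LI) (hLC : S_LC) (hCIR : S_CIR) (hFI : S_FI)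
    (hPF : S_PF) (hST : S_ST) (hNN : S_NN) : S_EM := by
  classical
  intro k hk C R b hirr d γ hBd hInd
  have hn : 0 < C.n := by
    by_contra h
    have h0 : C.n = 0 := by omega
    have : IsEmpty (Fin C.n) := by rw [h0]; infer_instance
    have h1 : C.poly = 1 := by
      unfold Crv.poly
      have h2 : Finset.range C.n = ∅ := by rw [h0]; rfl
      rw [Fintype.prod_empty, h2, Finset.sum_empty, add_zero]
    rw [h1] at hirr
    exact hirr.not_isUnit isUnit_one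
  have hR0 : 0 < R := b.pos
  obtain ⟨δ, hδ, -⟩ := hCIR k C R b (R + 1) (by linarith)
  obtain ⟨R₂, hRR₂, hST'⟩ := hST k hk C R b (R + 1) δ (by linarith) hδ
  refine ⟨R₂, hRR₂, fun Z Z₁ M₀ hM₀ => ?_⟩
  -- the point `c₀`
  obtain ⟨c₀, hc₀, hc₀B⟩ := big R hR0 (Z₁ ∪ M₀.biUnion fun m => Finset.univ.image fun i => b.xb i m)
  rw [Finset.mem_union, not_or] at hc₀B
  have hc₀M₀ : ∀ m ∈ M₀, C.F c₀ m ≠ 0 := by
    intro m hm h
    obtain ⟨i, hi⟩ := (b.rootX m (hRR₂.trans_lt (hM₀ m hm).2) c₀).1 h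
    apply hc₀B.2
    rw [Finset.mem_biUnion]
    exact ⟨m, hm, Finset.mem_image.2 ⟨i, Finset.mem_univ i, hi.symm⟩⟩
  -- the points `u`
  have hdense : Dense ((k : Set ℂ) \ (Z : Set ℂ)) := hk.sdiff_finset Z
  obtain ⟨u, hu, hdet⟩ := hLI C.n (fun i => b.yb i c₀) (fun i => deriv (b.yb i) c₀) R₂ _ hdense
    (b.injY c₀ hc₀) (fun i => b.derivY i c₀ hc₀)
  obtain ⟨Z', hZ'⟩ : ∃ Z' : Finset ℂ, Z' = Z ∪ Finset.univ.image fun i => b.yb i c₀ := ⟨_, rfl⟩
  obtain ⟨J, hJ⟩ := hFI ((Fin d → ℝ) × (Fin C.n → ℝ)) {m : ℂ // m ∈ k ∧ m ∉ Z' ∧ R₂ < ‖m‖}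
    (fun m => NN γ δ R₂ m.1)
  obtain ⟨M, hM⟩ : ∃ M : Finset ℂ, M = M₀ ∪ J.image Subtype.val ∪ Finset.univ.image u := ⟨_, rfl⟩
  have hJmem : ∀ m ∈ J.image Subtype.val, m ∈ k ∧ m ∉ Z' ∧ R₂ < ‖m‖ := by
    intro m hm
    rw [Finset.mem_image] at hm
    obtain ⟨m', -, rfl⟩ := hm
    exact m'.2
  have huM : ∀ j, u j ∈ M := by
    intro j
    rw [hM, Finset.mem_union]
    exact Or.inr (Finset.mem_image_of_mem _ (Finset.mem_univ j))
  have hMall : ∀ m ∈ M, m ∈ k ∧ R₂ < ‖m‖ ∧ C.F c₀ m ≠ 0 ∧ (m ∉ M₀ → m ∉ Z) := by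
    intro m hm
    rw [hM, Finset.mem_union, Finset.mem_union] at hm
    rcases hm with (hm | hm) | hm
    · exact ⟨(hM₀ m hm).1, (hM₀ m hm).2, hc₀M₀ m hm, fun h => absurd hm h⟩
    · obtain ⟨h1, h2, h3⟩ := hJmem m hm
      rw [hZ', Finset.mem_union, not_or] at h2
      refine ⟨h1, h3, ?_, fun _ => h2.1⟩
      intro h
      obtain ⟨i, hi⟩ := (b.rootY c₀ hc₀ m).1 h
      exact h2.2 (Finset.mem_image.2 ⟨i, Finset.mem_univ i, hi.symm⟩)
    · rw [Finset.mem_image] at hm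
      obtain ⟨j, -, rfl⟩ := hm
      refine ⟨(hu j).1.1, (hu j).2.1, ?_, fun _ h => (hu j).1.2 h⟩
      intro h
      obtain ⟨i, hi⟩ := (b.rootY c₀ hc₀ (u j)).1 h
      exact (hu j).2.2 i hi.symm
  have hMR : ∀ m ∈ M, R < ‖m‖ := fun m hm => hRR₂.trans_lt (hMall m hm).2.1
  -- the radius
  have ho : IsOpen {c : ℂ | R < ‖c‖} := isOpen_lt continuous_const continuous_norm
  have hev : ∀ᶠ c in nhds c₀, R < ‖c‖ ∧ c ∉ Z₁ ∧ (∀ m ∈ M, C.F c m ≠ 0) ∧
      (mat (fun i => b.yb i c) (fun i => deriv (b.yb i) c) u).det ≠ 0 := by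
    refine Filter.Eventually.and (ho.mem_nhds hc₀) (Filter.Eventually.and ?_
      (Filter.Eventually.and ?_ ?_))
    · exact (Z₁.finite_toSet.isClosed.isOpen_compl).mem_nhds hc₀B.1
    · rw [Filter.eventually_all_finset]
      intro m hm
      have h1 : ∀ i, c₀ ≠ b.xb i m := by
        intro i hi
        exact (hMall m hm).2.2.1 ((b.rootX m (hMR m hm) c₀).2 ⟨i, hi⟩)
      have h2 : ∀ᶠ c in nhds c₀, ∀ i, c ≠ b.xb i m := by
        rw [Filter.eventually_all]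
        intro i
        exact isOpen_ne.mem_nhds (h1 i)
      filter_upwards [h2] with c hc h
      obtain ⟨i, hi⟩ := (b.rootX m (hMR m hm) c).1 h
      exact hc i hi
    · exact (cont b.yb u c₀ R hc₀ b.diffY (fun j i => (hu j).2.2 i)).eventually_ne hdet
  obtain ⟨ε, hε, hball⟩ := Metric.eventually_nhds_iff_ball.1 hev
  refine ⟨M, c₀, ε, ?_, hε, fun m hm => ⟨(hMall m hm).1, hMR m hm⟩,
    fun m hm => (hMall m hm).2.2.2, ?_, ?_⟩
  · rw [hM]
    exact Finset.subset_union_left.trans Finset.subset_union_left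
  · intro c hc
    obtain ⟨h1, h2, h3, h4⟩ := hball c hc
    exact ⟨h1, h2, h3, fun v hv => rank _ _ u h4 v fun j => hv (u j) (huM j)⟩
  intro s lam lam' τ hRel
  have hreg : ∀ m ∈ M, ∀ c ∈ Metric.ball c₀ ε, ∀ l, ((γ l).int (ker m c)).im = (γ l).reg m c := by
    intro m hm c hc l
    exact (hH (γ l) m c (fun t => (hBd l t).2.trans (hMR m hm))
      (fun t => (hBd l t).1.trans (hball c hc).1)).symm
  -- the coefficients are constant near `c₀`
  have hεX : ∀ j i, ε ≤ ‖b.xb i (u j) - c₀‖ := by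
    intro j i
    by_contra h
    have h1 : b.xb i (u j) ∈ Metric.ball c₀ ε := by
      rw [Metric.mem_ball, dist_eq_norm]
      exact not_le.1 h
    exact (hball _ h1).2.2.1 (u j) (huM j)
      ((b.rootX (u j) (hMR _ (huM j)) _).2 ⟨i, rfl⟩)
  have hballR : Metric.ball c₀ ε ⊆ {c | R < ‖c‖} := fun c hc => (hball c hc).1
  have hP : ∀ j, DifferentiableOn ℂ (fun c => ∑ l, (s l : ℂ) *
      (-Complex.I * (γ l).int (ker (u j) c)) -
      ∑ i, (lam' (u j) i : ℂ) * Lg (b.xb i (u j)) c₀ c - (τ : ℂ)) (Metric.ball c₀ ε) := by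
    intro j
    refine DifferentiableOn.sub (DifferentiableOn.sub ?_ ?_) (differentiableOn_const _)
    · refine DifferentiableOn.fun_sum fun l _ => ?_
      exact ((((hHD (γ l) R (hBd l)).1 (u j) (hMR _ (huM j))).mono hballR).const_mul _).const_mul _
    · refine DifferentiableOn.fun_sum fun i _ => ?_
      exact (Lg_diff (b.xb i (u j)) c₀ ε (hεX j i)).const_mul _
  have hre : ∀ c ∈ (k : Set ℂ), c ∈ Metric.ball c₀ ε → ∀ j, (∑ l, (s l : ℂ) *
      (-Complex.I * (γ l).int (ker (u j) c)) -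
      ∑ i, (lam' (u j) i : ℂ) * Lg (b.xb i (u j)) c₀ c - (τ : ℂ)).re =
      ∑ i, lam c i * Real.log ‖b.yb i c - u j‖ := by
    intro c hck hc j
    have h1 : ‖c - c₀‖ < ε := by
      rw [← dist_eq_norm]
      exact Metric.mem_ball.1 hc
    have h5 := hRel (u j) (huM j) c ⟨hck, hc⟩
    have h6 : (∑ i, (lam' (u j) i : ℂ) * Lg (b.xb i (u j)) c₀ c).re =
        ∑ i, lam' (u j) i * Real.log ‖b.xb i (u j) - c‖ := by
      rw [Complex.re_sum]
      refine Finset.sum_congr rfl fun i _ => ?_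
      rw [Complex.re_ofReal_mul, Lg_re _ _ _ (lt_of_lt_of_le h1 (hεX j i))]
    have h7 : ∑ l, s l * ((γ l).int (ker (u j) c)).im = ∑ l, s l * (γ l).reg (u j) c :=
      Finset.sum_congr rfl fun l _ => by rw [hreg (u j) (huM j) c hc l]
    rw [Complex.sub_re, Complex.sub_re, h6, phi_re, h7, h5, Complex.ofReal_re]
    ring
  obtain ⟨ε', hε', hconst⟩ := hLC C.n c₀ ε (k : Set ℂ) b.yb _ u lam hε hk
    (fun i => (b.diffY i).mono hballR) hP (fun i j => (hu j).2.2 i) hre hdet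
  obtain ⟨e2, he2, he2a, he2b⟩ : ∃ e2 : ℝ, 0 < e2 ∧ e2 ≤ ε ∧ e2 ≤ ε' :=
    ⟨min ε ε', lt_min hε hε', min_le_left _ _, min_le_right _ _⟩
  obtain ⟨c₁, hc₁b, hc₁k⟩ := hk.inter_open_nonempty (Metric.ball c₀ e2) Metric.isOpen_ball
    ⟨c₀, Metric.mem_ball_self he2⟩
  obtain ⟨β, hβ⟩ : ∃ β : Fin C.n → ℝ, β = lam c₁ := ⟨_, rfl⟩
  have hlam : ∀ c ∈ k, c ∈ Metric.ball c₀ e2 → lam c = β := by
    intro c hck hc
    rw [hβ]
    exact hconst c hck c₁ hc₁k (Metric.ball_subset_ball he2b hc) (Metric.ball_subset_ball he2b hc₁b)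
  have hsub : Metric.ball c₀ e2 ⊆ Metric.ball c₀ ε := Metric.ball_subset_ball he2a
  have hst : ∀ m ∈ M, (∀ i, lam' m i = - β i) ∧ ∀ c, R₂ < ‖c‖ →
      ∑ l, (s l : ℂ) * (γ l).int (ker m c) +
      ∑ i, ((β i / (2 * Real.pi) : ℝ) : ℂ) * (δ i).int (ker m c) = 0 := by
    intro m hm
    refine hST' d γ hBd m (hMall m hm).2.1 c₀ e2 he2
      (fun c hc => ⟨(hball c (hsub hc)).1, (hball c (hsub hc)).2.2.1 m hm⟩) s β (lam' m) τ ?_
    intro c hck hc
    have h1 := hRel m hm c ⟨hck, hsub hc⟩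
    rw [hlam c hck hc] at h1
    exact h1
  have hmem : ((s, β) : (Fin d → ℝ) × (Fin C.n → ℝ)) ∈ ⨅ i ∈ J, NN γ δ R₂ i.1 := by
    rw [Submodule.mem_iInf]
    intro m
    rw [Submodule.mem_iInf]
    intro hm
    rw [mem_NN]
    refine (hst m.1 ?_).2
    rw [hM, Finset.mem_union, Finset.mem_union]
    exact Or.inl (Or.inr (Finset.mem_image_of_mem _ hm))
  rw [hJ, Submodule.mem_iInf] at hmem
  obtain ⟨hs0, hβeq⟩ := hNN k hk C R b (R + 1) δ (by linarith) hδ hirr d γ hBd hInd R₂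
    (Z' : Set ℂ) Z'.finite_toSet s β (by
      intro m hmk hmZ hmR c hc
      exact (mem_NN _ _ _ _ _).1 (hmem ⟨m, hmk, hmZ, hmR⟩) c hc)
  obtain ⟨β0, hβ0⟩ : ∃ β0 : ℝ, β0 = β ⟨0, hn⟩ := ⟨_, rfl⟩
  have hββ : ∀ i, β i = β0 := fun i => by rw [hβ0]; exact hβeq _ _
  have hrel0 : ∀ m ∈ M, ∀ c ∈ k, c ∈ Metric.ball c₀ ε →
      ∑ i, lam c i * Real.log ‖b.yb i c - m‖ - β0 * ∑ i, Real.log ‖b.xb i m - c‖ + τ = 0 := by
    intro m hm c hck hc
    have h1 := hRel m hm c ⟨hck, hc⟩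
    rw [hs0] at h1
    have h2 : ∑ i, lam' m i * Real.log ‖b.xb i m - c‖ = - (β0 * ∑ i, Real.log ‖b.xb i m - c‖) := by
      rw [Finset.mul_sum, ← Finset.sum_neg_distrib]
      refine Finset.sum_congr rfl fun i _ => ?_
      rw [(hst m hm).1 i, hββ i]
      ring
    rw [h2] at h1
    simp only [Pi.zero_apply, zero_mul, Finset.sum_const_zero] at h1
    linarith
  have hτ : τ = - β0 * ∑ i, Real.log ‖C.α i‖ := by
    have hj : u (⟨0, hn⟩, 0) ∈ M := huM _
    have h1 := hrel0 _ hj c₁ hc₁k (hsub hc₁b)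
    have h2 := logF hPF C b c₁ _ (hball c₁ (hsub hc₁b)).1 (hMR _ hj)
      ((hball c₁ (hsub hc₁b)).2.2.1 _ hj)
    have h3 : ∑ i, lam c₁ i * Real.log ‖b.yb i c₁ - u (⟨0, hn⟩, 0)‖ =
        β0 * ∑ i, Real.log ‖b.yb i c₁ - u (⟨0, hn⟩, 0)‖ := by
      rw [Finset.mul_sum]
      refine Finset.sum_congr rfl fun i _ => ?_
      rw [← hββ i, hβ]
    rw [h3, h2] at h1
    linarith
  refine ⟨hs0, β0, hτ, ?_, ?_⟩
  · intro c hck hc i
    have h1 : (fun i => lam c i - β0) = 0 := by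
      refine rank _ _ u (hball c hc).2.2.2 _ fun j => ?_
      have h2 := hrel0 _ (huM j) c hck hc
      have h3 := logF hPF C b c _ (hball c hc).1 (hMR _ (huM j)) ((hball c hc).2.2.1 _ (huM j))
      have h4 : ∑ i, (lam c i - β0) * Real.log ‖b.yb i c - u j‖ =
          ∑ i, lam c i * Real.log ‖b.yb i c - u j‖ - β0 * ∑ i, Real.log ‖b.yb i c - u j‖ := by
        rw [Finset.mul_sum, ← Finset.sum_sub_distrib]
        exact Finset.sum_congr rfl fun i _ => by ring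
      rw [h4, h3]
      rw [hτ] at h2
      linarith
    have h2 := congrFun h1 i
    simp only [Pi.zero_apply] at h2
    linarith
  · intro m hm i
    rw [(hst m hm).1 i, hββ i]

end Pool.Agent.N255.GP2
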